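import Mathlib
import Pool.Agent.R493.ST.Orb
/-!
# Exact patterns of primes in Cunningham sequences of the second kind, common to several scales

`c_j(p) = 2 ^ j (p - 1) + 1`. For all `k`, `L`, `R`, `M`: every large set `V` of times contains, for all large `x_1, ..., x_R`
(which may be of very different sizes), a set `W` of `L` times such that for EVERY subset
`F = {t < e_1 < ... < e_s}`, `s ≤ k`, of `W` and every `r` there are at least `x_r / (log x_r) ^ B` primes
`p ≤ x_r` such that among the numbers `c_0(p), c_1(p), ..., c_(e_s - t + M)(p)` exactly `c_0(p) = p`,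
`c_(e_1 - t)(p), ..., c_(e_s - t)(p)` are prime, and `p` is none of the numbers `c_1(q), ..., c_M(q)` for any
prime `q`. The question asks for the pattern `F = {0, 1, ..., k - 1}` with `M = 1`.

The theorem on classes of linear forms with the constant `18 / 5` (`Pool.Agent.Y827.RO.lamRD`) and the
passage to exact sets of prime forms (`Pool.Agent.Y876.FF.trace_int`) are from the starting files.
-/

namespace Pool.Agent.Results.MP_39b545_nt.CommonPatterns

open Finset Filter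

/-- the `j`-th term of the sequence of the second kind which starts with `p` -/
def c (j p : ℕ) : ℕ := 2 ^ j * (p - 1) + 1

/-- The number of the primes `p ≤ x` such that, for `t = min F` and all `j ≤ max F - t + M`, the number
`c j p` is a prime if and only if `t + j ∈ F`, and such that `p` is not `c j q` for any prime `q` and
`1 ≤ j ≤ M`. -/
noncomputable def count (M t : ℕ) (F : Finset ℕ) (x : ℝ) : ℕ :=
  {p : ℕ | (p : ℝ) ≤ x ∧ p.Prime ∧ (∀ j : ℕ, t + j ≤ F.sup id + M → ((c j p).Prime ↔ t + j ∈ F)) ∧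
    ∀ j : ℕ, 1 ≤ j → j ≤ M → ∀ q : ℕ, q.Prime → c j q ≠ p}.ncard

theorem c_eq (j : ℕ) {p : ℕ} (hp : 1 ≤ p) : ((c j p : ℕ) : ℤ) = ((2 : ℕ) : ℤ) ^ j * ((p : ℤ) - (1)) + (1) := by
  unfold c
  obtain ⟨r, rfl⟩ := Nat.exists_eq_add_of_le hp
  rw [Nat.add_sub_cancel_left]
  push_cast
  ring

theorem count_eq (M t : ℕ) (F : Finset ℕ) (x : ℝ) :
    Pool.Agent.R493.ST.orbN 2 (1) M t F x = count M t F x := by
  unfold Pool.Agent.R493.ST.orbN count
  congr 1
  ext p
  simp only [Set.mem_ofPred_eq]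
  refine and_congr_right fun _ => and_congr_right fun hp => and_congr ?_ ?_
  · refine forall₂_congr fun j _ => ?_
    rw [← c_eq j hp.one_le, Int.toNat_natCast]
  · refine forall₅_congr fun j _ _ q hq => ?_
    rw [← c_eq j hq.one_le]
    exact not_congr Nat.cast_inj

theorem result (k : ℕ) : ∃ B : ℕ, ∀ L R M : ℕ, ∃ K : ℕ, ∀ V : Finset ℕ, K ≤ V.card → ∃ x₀ : ℝ,
    ∀ x : Fin R → ℝ, (∀ ρ, x₀ ≤ x ρ) →
      ∃ W ⊆ V, W.card = L ∧ ∀ ρ, ∀ F ⊆ W, F.card ≤ k + 1 → ∀ t ∈ F, (∀ e ∈ F, t ≤ e) →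
        x ρ / Real.log (x ρ) ^ B ≤ (count M t F (x ρ) : ℝ) := by
  obtain ⟨B, hB⟩ := Pool.Agent.R493.ST.orbits k
  refine ⟨B, fun L R M => ?_⟩
  obtain ⟨K, hK⟩ := hB L R M
  refine ⟨K, fun V hV => ?_⟩
  obtain ⟨x₀, hx₀⟩ := hK V hV (fun _ => 2) (fun _ => 1) (fun _ => ⟨le_rfl, Or.inl rfl⟩)
  refine ⟨x₀, fun x hx => ?_⟩
  obtain ⟨W, hW, hL, h⟩ := hx₀ x hx
  refine ⟨W, hW, hL, fun ρ F hF hFk t ht hmin => ?_⟩
  rw [← count_eq]
  exact h ρ F hF hFk t ht hmin

end Pool.Agent.Results.MP_39b545_nt.CommonPatterns
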