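import Mathlib
import Pool.Agent.R493.EX.Exact
/-!
# The exact positions of the primes in Cunningham sequences of the second kind

Let `c_j(p) = 2 ^ j (p - 1) + 1` and let `E` be ANY set of `45` times. For every `R` and every large `x` there is
a set `T ⊆ E` of at least two times, with least element `t`, such that there are many primes `p ≤ x` for which,
among the numbers `c_j(p)`, `1 ≤ j ≤ R`, exactly those with `t + j ∈ T` are prime, and `p` is not `c_j(q)` for any
prime `q`, `1 ≤ j ≤ R`; and there is one such `T` which serves arbitrarily large `x` for every `R`. For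
`E = {0, ..., 44}`: there is a nonempty set `T' ⊆ {1, ..., 44}` such that `c_j(p)` is prime exactly for the
`j ∈ T'`.

The theorem on 45 linear forms, with exactness and with the count `x / (log x) ^ B`
(`Pool.Agent.Y876.FF`), is from the starting files.
-/

namespace Pool.Agent.Results.MP_39b545_nt.ExactPositions

open Finset Filter

/-- the `j`-th term of the sequence of the second kind which starts with `p` -/
def c (j p : ℕ) : ℕ := 2 ^ j * (p - 1) + 1

/-- The number of the primes `p ≤ x` such that, for all `1 ≤ j ≤ R`, the number `c j p` is prime if and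
only if `t + j ∈ T`, and `p` is not `c j q` for any prime `q`. -/
noncomputable def count (t : ℕ) (T : Finset ℕ) (R : ℕ) (x : ℝ) : ℕ :=
  {p : ℕ | (p : ℝ) ≤ x ∧ p.Prime ∧ (∀ j ∈ Icc 1 R, ((c j p).Prime ↔ t + j ∈ T)) ∧
    ∀ j ∈ Icc 1 R, ∀ q : ℕ, q.Prime → c j q ≠ p}.ncard

theorem sum_two (j : ℕ) : ∑ i ∈ range j, (2 : ℤ) ^ i = 2 ^ j - 1 := by
  induction j with
  | zero => simp
  | succ j ih => rw [sum_range_succ, ih, pow_succ]; ring

theorem c_eq (j : ℕ) {p : ℕ} (hp : 1 ≤ p) : ((c j p : ℕ) : ℤ) = (-1) * ∑ i ∈ range j, (2 : ℤ) ^ i + p * 2 ^ j := by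
  unfold c
  rw [sum_two]
  push_cast [Nat.cast_sub hp]
  ring

theorem cnt_eq (t : ℕ) (T : Finset ℕ) (R : ℕ) (x : ℝ) :
    Pool.Agent.R493.EX.cnt (-1) 2 t T R x = count t T R x := by
  unfold Pool.Agent.R493.EX.cnt count
  congr 1
  ext q
  simp only [Set.mem_ofPred_eq]
  refine and_congr_right fun _ => and_congr_right fun hq => and_congr ?_ ?_
  · refine forall₂_congr fun j _ => ?_
    rw [← c_eq j hq.one_le]
    constructor
    · intro h
      rw [← h]
      exact ⟨fun h1 => ⟨_, h1, rfl⟩, fun ⟨p, hp, he⟩ => by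
        have : c j q = p := by exact_mod_cast he
        rwa [this]⟩
    · intro h
      rw [← h]
      exact ⟨fun ⟨p, hp, he⟩ => by
        have : c j q = p := by exact_mod_cast he
        rwa [this], fun h1 => ⟨_, h1, rfl⟩⟩
  · refine forall₄_congr fun j _ q' hq' => ?_
    rw [← c_eq j hq'.one_le]
    exact not_congr Nat.cast_inj

theorem result : ∃ B : ℕ, ∀ E : Finset ℕ, E.card = 45 →
    (∀ R : ℕ, ∀ᶠ x : ℝ in atTop, ∃ T ⊆ E, 2 ≤ T.card ∧ ∃ t ∈ T, (∀ e ∈ T, t ≤ e) ∧
      x / Real.log x ^ B ≤ count t T R x) ∧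
    ∃ T ⊆ E, 2 ≤ T.card ∧ ∃ t ∈ T, (∀ e ∈ T, t ≤ e) ∧ ∀ R : ℕ, ∃ᶠ x : ℝ in atTop,
      x / Real.log x ^ B ≤ count t T R x := by
  have hloc : ∀ E : Finset ℕ, ∀ p : ℕ, p.Prime → 3 ≤ p → p ≤ 43 → (p : ℤ) ∣ 2 - 1 →
      ¬ (p : ℤ) ∣ (-1) → ∃ r : ℕ, ∀ e ∈ E, ¬ e ≡ r [MOD p] := by
    intro E p hp h3 h43 h4 _
    exfalso
    have h5 : (p : ℤ) ∣ 1 := by simpa using h4
    exact (Nat.prime_iff_prime_int.1 hp).not_isUnit (isUnit_of_dvd_one h5)
  refine ⟨Pool.Agent.R493.EX.B45 + 1, fun E hE => ⟨?_, ?_⟩⟩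
  · intro R
    have h := Pool.Agent.R493.EX.every_scale (-1) 2 (by norm_num) (by decide) (by decide) (by decide)
      E hE (hloc E) R
    simp only [cnt_eq] at h
    exact h
  · have h := Pool.Agent.R493.EX.one_pattern (-1) 2 (by norm_num) (by decide) (by decide) (by decide)
      E hE (hloc E)
    simp only [cnt_eq] at h
    exact h

end Pool.Agent.Results.MP_39b545_nt.ExactPositions
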