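import Mathlib
import Pool.Agent.R935.JL.Exact

set_option autoImplicit false

/-!
# Consecutive starting points of rough chains of the second kind of exact length `k`

A rough chain of exact length `k`: no prime `p ≤ X ^ (1 / r)` divides one of the numbers
`2 ^ j (n - 1) + 1`, `j < k`, but such a prime divides `2 ^ k (n - 1) + 1`. The residues and the gaps of any
number of consecutive starting points are asymptotically independent, in all short intervals.
-/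

namespace Pool.Agent.Results.MP_39b545_nt.JointLaw

open Finset Filter
open Pool.Agent.R935.JL

/-- no prime `p ≤ X ^ (1 / r)` divides one of the numbers `2 ^ j (n - 1) + 1`, `j < k` -/
def Rough (k X r n : ℕ) : Prop :=
  ∀ p : ℕ, p.Prime → (p : ℝ) ≤ (X : ℝ) ^ (1 / (r : ℝ)) → ∀ j < k, ¬ (p : ℤ) ∣ 2 ^ j * ((n : ℤ) - 1) + 1

/-- `n` starts a rough chain of exact length `k`: no prime `p ≤ X ^ (1 / r)` divides one of the numbers
`2 ^ j (n - 1) + 1`, `j < k`, but such a prime divides the next number `2 ^ k (n - 1) + 1` -/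
def Exact (k X r n : ℕ) : Prop :=
  Rough k X r n ∧ ∃ p : ℕ, p.Prime ∧ (p : ℝ) ≤ (X : ℝ) ^ (1 / (r : ℝ)) ∧ (p : ℤ) ∣ 2 ^ k * ((n : ℤ) - 1) + 1

/-- the first exact starting point after `n` -/
noncomputable def next (k X r n : ℕ) : ℕ := sInf {m | n < m ∧ Exact k X r m}

/-- the number of the residues `n` modulo `p` for which `p` divides one of the numbers `2 ^ j (n - 1) + 1`, `j < k` -/
noncomputable def roots (k p : ℕ) : ℕ := by
  classical
  exact ((range p).filter (fun n : ℕ => ∃ j < k, (p : ℤ) ∣ 2 ^ j * ((n : ℤ) - 1) + 1)).card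

/-- the density: the product of `1 - roots k p / p` over the primes `p ≤ X ^ (1 / r)` -/
noncomputable def V (k X r : ℕ) : ℝ :=
  ∏ p ∈ (Icc 1 ⌊(X : ℝ) ^ (1 / (r : ℝ))⌋₊).filter Nat.Prime, (1 - (roots k p : ℝ) / p)

/-- the residues `a` modulo `q` for which none of the numbers `2 ^ j (a - 1) + 1`, `j < k`, has a common prime
factor with `q` -/
def Classes (k q : ℕ) : Finset ℕ :=
  (range q).filter (fun a => ∀ p ∈ q.primeFactors, ∀ j < k, ¬ (p : ℤ) ∣ 2 ^ j * ((a : ℤ) - 1) + 1)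

/-- The number of the exact starting points `n` in `(Z, Z + Y]` with `n ≡ a (mod q)` such that the next `K`
exact starting points `n_1 < n_2 < ... < n_K` after `n = n_0` satisfy `n_(j + 1) ≡ b j (mod q)` and
`s j < n_(j + 1) - n_j ≤ t j` for all `j < K`. -/
noncomputable def Runs (k X r q K a : ℕ) (b s t : ℕ → ℕ) (Z Y : ℕ) : ℕ :=
  Set.ncard {n : ℕ | Z < n ∧ n ≤ Z + Y ∧ Exact k X r n ∧ n % q = a ∧
    ∀ j < K, (next k X r)^[j + 1] n % q = b j ∧ s j < (next k X r)^[j + 1] n - (next k X r)^[j] n ∧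
      (next k X r)^[j + 1] n - (next k X r)^[j] n ≤ t j}

/-- the same number without the conditions on the gaps -/
noncomputable def Residues (k X r q K a : ℕ) (b : ℕ → ℕ) (Z Y : ℕ) : ℕ :=
  Set.ncard {n : ℕ | Z < n ∧ n ≤ Z + Y ∧ Exact k X r n ∧ n % q = a ∧
    ∀ j < K, (next k X r)^[j + 1] n % q = b j}

lemma form (j : ℕ) (x : ℤ) : 2 ^ j * (x + (-1)) - (-1) = 2 ^ j * (x - 1) + 1 := by ring

lemma rough_iff (k X r n : ℕ) : Rough k X r n ↔ Pool.Agent.R463.PS.Sifted (cs (-1) k) X r n := by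
  rw [c_sift]
  unfold Rough
  simp only [form]

lemma exact_iff (k X r n : ℕ) : Exact k X r n ↔ Pool.Agent.R463.PS.Sifted (cs (-1) k) X r n ∧
    ¬ Pool.Agent.R463.PS.Sifted (cs (-1) (k + 1)) X r n := by
  unfold Exact
  rw [rough_iff]
  apply and_congr_right
  intro h
  rw [← rough_iff] at h ⊢
  constructor
  · rintro ⟨p, hp, hpX, hd⟩ h2
    exact h2 p hp hpX k (by omega) hd
  · intro h2
    unfold Rough at h2
    push Not at h2
    obtain ⟨p, hp, hpX, j, hj, hd⟩ := h2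
    rcases Nat.lt_or_ge j k with h3 | h3
    · exact absurd hd (h p hp hpX j h3)
    · have : j = k := by omega
      subst this
      exact ⟨p, hp, hpX, hd⟩

lemma next_eq (k X r : ℕ) :
    next k X r = Pool.Agent.R463.PP.next (fun n => Pool.Agent.R463.PS.Sifted (cs (-1) k) X r n ∧
      ¬ Pool.Agent.R463.PS.Sifted (cs (-1) (k + 1)) X r n) := by
  funext m
  unfold next Pool.Agent.R463.PP.next
  simp only [exact_iff]

lemma roots_eq (k p : ℕ) : roots k p = Pool.Agent.R463.PS.om (cs (-1) k) p := by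
  classical
  rw [c_om]
  unfold roots
  congr 1

lemma V_eq (k X r : ℕ) : V k X r = Pool.Agent.R463.PS.V (cs (-1) k) X r := by
  unfold V Pool.Agent.R463.PS.V
  simp only [roots_eq]

lemma classes_eq (k q : ℕ) (hq : 1 ≤ q) : Classes k q = Pool.Agent.R463.PP.Cl (cs (-1) k) q := by
  rw [c_Cl _ _ _ hq]
  unfold Classes
  simp only [form]

lemma castf (n j : ℕ) (hn : 1 ≤ n) : (((2 ^ j * (n - 1) + 1 : ℕ)) : ℤ) = 2 ^ j * ((n : ℤ) - 1) + 1 := by
  push_cast
  rw [Nat.cast_sub hn]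
  push_cast
  ring

lemma ge_self (n j : ℕ) : n ≤ 2 ^ j * (n - 1) + 1 := by
  have h1 : 1 * (n - 1) ≤ 2 ^ j * (n - 1) := Nat.mul_le_mul_right _ Nat.one_le_two_pow
  omega

lemma one_le_of {X r n : ℕ} (hn : (X : ℝ) ^ (1 / (r : ℝ)) < n) : 1 ≤ n := by
  have h1 : (0 : ℝ) ≤ (X : ℝ) ^ (1 / (r : ℝ)) := by positivity
  have h2 : (0 : ℝ) < n := by linarith
  exact_mod_cast h2

lemma rough_prime {k X r : ℕ} (n : ℕ) (hn : (X : ℝ) ^ (1 / (r : ℝ)) < n)
    (hpr : ∀ j < k, (2 ^ j * (n - 1) + 1).Prime) : Rough k X r n := by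
  intro p hp hpX j hj hd
  have hn1 := one_le_of hn
  rw [← castf n j hn1] at hd
  have h1 : p ∣ 2 ^ j * (n - 1) + 1 := by exact_mod_cast hd
  have h2 := (Nat.prime_dvd_prime_iff_eq hp (hpr j hj)).1 h1
  have h3 := ge_self n j
  have h4 : (p : ℝ) < n := hpX.trans_lt hn
  have h5 : p < n := by exact_mod_cast h4
  omega

lemma rough_fewf {k X r : ℕ} (hr : 1 ≤ r) (hX : ((2 ^ (k + 1) : ℕ) : ℝ) ≤ (X : ℝ) ^ (1 / (r : ℝ)))
    (n : ℕ) (hn1 : 1 ≤ n) (hnX : n ≤ X) (h : Rough k X r n) (j : ℕ) (hj : j < k) :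
    (2 ^ j * (n - 1) + 1).primeFactorsList.length ≤ r + 1 := by
  have h1 := ge_self n j
  have h2 : 2 ^ j ≤ 2 ^ k := Nat.pow_le_pow_right (by norm_num) hj.le
  have h0 : 1 * 1 ≤ 2 ^ k * X := Nat.mul_le_mul Nat.one_le_two_pow (by omega)
  have h3 : 2 ^ j * (n - 1) + 1 ≤ 2 ^ (k + 1) * X := by
    have h5 : 2 ^ j * (n - 1) ≤ 2 ^ k * X := Nat.mul_le_mul h2 (by omega)
    have h6 : 2 ^ (k + 1) * X = 2 ^ k * X + 2 ^ k * X := by ring
    omega
  have h4 : (1 : ℝ) < (X : ℝ) ^ (1 / (r : ℝ)) := by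
    refine lt_of_lt_of_le ?_ hX
    have : 2 ^ 1 ≤ 2 ^ (k + 1) := Nat.pow_le_pow_right (by norm_num) (by omega)
    exact_mod_cast (by omega : 1 < 2 ^ (k + 1))
  refine few_of_le hr hX h4 (by omega) h3 (fun p hp hpX hd => ?_)
  apply h p hp hpX j hj
  rw [← castf n j hn1]
  exact_mod_cast hd

lemma exact_comp {k X r : ℕ} (hk : 1 ≤ k) (n : ℕ) (hn : 2 ≤ n) (h : Exact k X r n) :
    1 < 2 ^ k * (n - 1) + 1 ∧ ¬ (2 ^ k * (n - 1) + 1).Prime := by
  have h1 := ge_self n k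
  refine ⟨by omega, fun hP => ?_⟩
  obtain ⟨h0, p, hp, hpX, hd⟩ := h
  rw [← castf n k (by omega)] at hd
  have h2 : p ∣ 2 ^ k * (n - 1) + 1 := by exact_mod_cast hd
  have h3 := (Nat.prime_dvd_prime_iff_eq hp hP).1 h2
  -- a prime factor of `n`
  obtain ⟨l, hl, hln⟩ := Nat.exists_prime_and_dvd (show n ≠ 1 by omega)
  apply h0 l hl _ 0 (by omega)
  · rw [pow_zero, one_mul, sub_add_cancel]
    exact_mod_cast hln
  · have h4 : l ≤ n := Nat.le_of_dvd (by omega) hln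
    have h5 : l ≤ p := by omega
    have h6 : (l : ℝ) ≤ p := by exact_mod_cast h5
    exact h6.trans hpX

/-- **The joint law of consecutive starting points of rough chains of exact length `k`.** Let `k ≥ 1`,
`θ > 0`, `K ≥ 0`, `q ≥ 1` and `ε > 0`. There is `r₀` such that for all `r ≥ r₀` and all large `X`:
(1) every `n > X ^ (1 / r)` for which the numbers `2 ^ j (n - 1) + 1`, `j < k`, are all prime and `2 ^ k (n - 1) + 1` has a
prime factor `≤ X ^ (1 / r)` is exact;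
(2) if `2 ≤ n ≤ X` is exact, then each of the numbers `2 ^ j (n - 1) + 1`, `j < k`, has at most `r + 1` prime factors,
and the next number `2 ^ k (n - 1) + 1` is composite;
(3) in every interval `(Z, Z + Y]` with `Y ≥ X ^ θ`, for all classes `a`, `b j` in `Classes k q` and all bounds
`s j ≤ t j`, the number `Runs` is `Y V / φ ^ (K + 1) * ∏_(j < K) (exp (- V (s j)) - exp (- V (t j)))` up to
`ε Y V`, where `φ` is the number of the elements of `Classes k q`, and the number `Residues` is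
`Y V / φ ^ (K + 1)` up to `ε Y V`. -/
theorem result (k : ℕ) (hk : 1 ≤ k) (θ : ℝ) (hθ : 0 < θ) (K q : ℕ) (hq : 1 ≤ q) (ε : ℝ) (hε : 0 < ε) :
    ∃ r₀ : ℕ, ∀ r : ℕ, r₀ ≤ r → ∀ᶠ X : ℕ in atTop,
      (∀ n : ℕ, (X : ℝ) ^ (1 / (r : ℝ)) < n → (∀ j < k, (2 ^ j * (n - 1) + 1).Prime) →
        (∃ p : ℕ, p.Prime ∧ (p : ℝ) ≤ (X : ℝ) ^ (1 / (r : ℝ)) ∧ p ∣ 2 ^ k * (n - 1) + 1) → Exact k X r n) ∧
      (∀ n : ℕ, 2 ≤ n → n ≤ X → Exact k X r n →
        (∀ j < k, (2 ^ j * (n - 1) + 1).primeFactorsList.length ≤ r + 1) ∧ 1 < 2 ^ k * (n - 1) + 1 ∧ ¬ (2 ^ k * (n - 1) + 1).Prime) ∧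
      ∀ Z Y : ℕ, (X : ℝ) ^ θ ≤ Y → ∀ a ∈ Classes k q, ∀ b : ℕ → ℕ, (∀ j < K, b j ∈ Classes k q) →
        (∀ s t : ℕ → ℕ, (∀ j < K, s j ≤ t j) →
          |(Runs k X r q K a b s t Z Y : ℝ) - Y * V k X r / (Classes k q).card ^ (K + 1) *
            ∏ j ∈ range K, (Real.exp (-(V k X r * s j)) - Real.exp (-(V k X r * t j)))| ≤
            ε * (Y * V k X r)) ∧
        |(Residues k X r q K a b Z Y : ℝ) - Y * V k X r / (Classes k q).card ^ (K + 1)| ≤
          ε * (Y * V k X r) := by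
  obtain ⟨r₀, hr₀, h⟩ := exact_joint (cs (-1) k) (cs (-1) (k + 1)) (c_ev (Or.inr rfl) k) (c_ev (Or.inr rfl) (k + 1))
    (fun r hr => c_V (-1) hk r hr) (fun r hr => c_Vsucc (Or.inr rfl) hk r hr) (fun X r n hn => c_sub hn)
    q K hq θ hθ ε hε
  refine ⟨r₀, fun r hr => ?_⟩
  have hr2 : 2 ≤ r := hr₀.trans hr
  filter_upwards [h r hr, ev_large r (by omega) (2 ^ (k + 1))] with X h1 h4
  refine ⟨fun n hn hpr hex => ⟨rough_prime n hn hpr, ?_⟩, fun n hn1 hnX hn =>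
    ⟨fun j hj => rough_fewf (by omega) h4 n (by omega) hnX hn.1 j hj, ?_⟩, ?_⟩
  · obtain ⟨p, hp, hpX, hd⟩ := hex
    refine ⟨p, hp, hpX, ?_⟩
    rw [← castf n k (one_le_of hn)]
    exact_mod_cast hd
  · exact exact_comp hk n hn1 hn
  intro Z Y hY a ha b hb
  rw [classes_eq k q hq] at ha hb ⊢
  rw [V_eq]
  obtain ⟨g1, g2⟩ := h1 Z Y hY a ha b hb
  constructor
  · intro s t hst
    have g3 := g1 s t hst
    have e : Runs k X r q K a b s t Z Y = Set.ncard {n : ℕ | Z < n ∧ n ≤ Z + Y ∧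
        Pool.Agent.R463.PP.Run (fun m => Pool.Agent.R463.PS.Sifted (cs (-1) k) X r m ∧
          ¬ Pool.Agent.R463.PS.Sifted (cs (-1) (k + 1)) X r m) q K a b s t n} := by
      unfold Runs Pool.Agent.R463.PP.Run
      rw [next_eq]
      simp only [exact_iff]
    rw [e]
    exact g3
  · have e : Residues k X r q K a b Z Y = Set.ncard {n : ℕ | Z < n ∧ n ≤ Z + Y ∧
        Pool.Agent.R463.PP.RunC (fun m => Pool.Agent.R463.PS.Sifted (cs (-1) k) X r m ∧
          ¬ Pool.Agent.R463.PS.Sifted (cs (-1) (k + 1)) X r m) q K a b n} := by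
      unfold Residues Pool.Agent.R463.PP.RunC
      rw [next_eq]
      simp only [exact_iff]
    rw [e]
    exact g2

end Pool.Agent.Results.MP_39b545_nt.JointLaw
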